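import Pool.Agent.H66.PB.Pos
import Pool.Agent.H66.TBG.Fam

/-!
# The family of positive three-braids
-/

set_option autoImplicit false

namespace Pool.Agent.H66.PB

open Pool.Agent.N518.KT Pool.Agent.V11208.FT
open Pool.Agent.H66.TBG (ent ent_form ent_prod digits_inj)

noncomputable section

/-- the first generator -/
abbrev qa : FG := N518.KT.sq 0
/-- the second generator -/
abbrev qb : FG := N518.KT.sq 1

/-- the product of commutators with `n` entries -/
def PG (y : ℤ) (n : ℕ) (δ : ℕ → ℤ) : ℕ → FG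
  | 0 => 1
  | (m + 1) => PG y n δ m * nest qa qb (ent y n m (δ m))

/-- the product with all digits -/
def GW (y : ℤ) (d : ℕ → ℕ → ℤ) : ℕ → FG
  | 0 => 1
  | (k + 1) => GW y d k * PG y (2 * (k + 1)) (d k) (2 * (k + 1))

/-! ### leading terms -/

theorem lead_PG (y : ℤ) {n : ℕ} (δ : ℕ → ℤ) (hn : 2 ≤ n) {m : ℕ} (hm : m ≤ n) :
    Lead (io 2) (Tf 2) n ((∑ t ∈ Finset.range m, δ t * y ^ t) • adr (sqX 0) (sqX 1) (n - 1))
      (PG y n δ m) := by
  induction m with
  | zero => simpa [PG] using Lead.one (N518.KT.filt 2) n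
  | succ m ih =>
    have h1 := ih (by omega)
    have h2 : Lead (io 2) (Tf 2) n ((δ m * y ^ m) • adr (sqX 0) (sqX 1) (n - 1))
        (nest qa qb (ent y n m (δ m))) := by
      obtain ⟨f, l, e, hl⟩ := ent_form y (δ m) hn (show m < n by omega)
      have h3 := lead_nest (N518.KT.filt 2) (lead_sq 0) (lead_sq 1) (δ m) (f :: l)
      rw [← e, ent_prod, List.length_cons] at h3
      have e2 : l.length + 1 + 1 = n := by omega
      have e3 : l.length + 1 = n - 1 := by omega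
      rw [e2, e3] at h3
      exact h3
    have h3 := h1.mul (N518.KT.filt 2) (by omega) h2
    rw [← add_smul, ← Finset.sum_range_succ] at h3
    exact h3

/-- the pure elements -/
def Pu (g : FG) : Prop := io 2 g - 1 ∈ Tf 2 1

theorem Pu.mul {g h : FG} (hg : Pu g) (hh : Pu h) : Pu (g * h) := by
  unfold Pu at *
  have e : io 2 (g * h) - 1 = (io 2 g - 1) * io 2 h + (io 2 h - 1) := by
    rw [map_mul, sub_mul, one_mul]
    abel
  rw [e]
  exact (Tf 2 1).add_mem ((N518.KT.filt 2).right hg ((N518.KT.filt 2).mem h)) hh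

theorem Pu.conj {g : FG} (hg : Pu g) (x : FG) : Pu (x * g * x⁻¹) := by
  unfold Pu at *
  have ex : io 2 x * io 2 x⁻¹ = 1 := by rw [← map_mul, mul_inv_cancel, map_one]
  have e : io 2 (x * g * x⁻¹) - 1 = io 2 x * (io 2 g - 1) * io 2 x⁻¹ := by
    rw [map_mul, map_mul, mul_sub, sub_mul, mul_one, ex]
  rw [e]
  exact (N518.KT.filt 2).right ((N518.KT.filt 2).left ((N518.KT.filt 2).mem x) hg) ((N518.KT.filt 2).mem _)

theorem Pu.one : Pu 1 := by
  unfold Pu
  rw [map_one, sub_self]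
  exact (Tf 2 1).zero_mem

theorem Pu.pow {g : FG} (hg : Pu g) (m : ℕ) : Pu (g ^ m) := by
  induction m with
  | zero => rw [pow_zero]; exact Pu.one
  | succ m ih => rw [pow_succ]; exact ih.mul hg

theorem pu_sq (i : Fin 2) : Pu (N518.KT.sq i) := (lead_sq i).diff (N518.KT.filt 2)

theorem pu_dl : Pu dl := by
  have e0 : N518.KT.sq (0 : Fin 2) = gs * gs := by
    unfold N518.KT.sq gs
    rw [FreeGroup.mul_mk]
    rfl
  have e1 : N518.KT.sq (1 : Fin 2) = gt * gt := by
    unfold N518.KT.sq gt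
    rw [FreeGroup.mul_mk]
    rfl
  have e : dl = (gs * gt) * N518.KT.sq 0 * (gs * gt)⁻¹ * (gs * N518.KT.sq 1 * gs⁻¹) * N518.KT.sq 0 := by
    rw [e0, e1]
    unfold dl
    group
  rw [e]
  exact (((pu_sq 0).conj _).mul ((pu_sq 1).conj _)).mul (pu_sq 0)

theorem pu_PG (y : ℤ) {n : ℕ} (δ : ℕ → ℤ) (hn : 2 ≤ n) : Pu (PG y n δ n) :=
  (N518.KT.filt 2).le (by omega) ((lead_PG y δ hn le_rfl).diff (N518.KT.filt 2))

theorem pu_GW (y : ℤ) (d : ℕ → ℕ → ℤ) (k : ℕ) : Pu (GW y d k) := by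
  induction k with
  | zero => exact Pu.one
  | succ k ih => exact ih.mul (pu_PG y _ (by omega))

/-! ### the coefficients -/

/-- the coefficient of the Conway power series -/
def co (n : ℕ) (g : FG) : ℂ := PowerSeries.coeff (R := ℂ) n (HH 2 (io 2 g))

theorem co_low {n k : ℕ} (hn : n < k) (b h : FG) (hh : io 2 h - 1 ∈ Tf 2 k) :
    co n (b * h) = co n b := by
  have e : io 2 (b * h) = io 2 b + io 2 b * (io 2 h - 1) := by
    rw [map_mul, mul_sub, mul_one]
    abel
  unfold co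
  rw [e, map_add, map_add]
  have h1 := HH_Tf ((N518.KT.filt 2).left ((N518.KT.filt 2).mem b) hh)
  rw [PowerSeries.X_pow_dvd_iff.mp h1 n hn, add_zero]

theorem co_top {j : ℕ} {S : ℤ} {h a : FG} (ha : Pu a)
    (hh : Lead (io 2) (Tf 2) (2 * j + 1 + 1) (S • adr (sqX 0) (sqX 1) (2 * j + 1)) h) :
    co (2 * j + 1 + 1) (FreeGroup.mk bw * a * h) =
      co (2 * j + 1 + 1) (FreeGroup.mk bw * a) + (-2) ^ (2 * j + 1 + 1) * 4 ^ j * S := by
  set X := S • adr (sqX (0 : Fin 2)) (sqX 1) (2 * j + 1) with hX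
  have e3 : io 2 (FreeGroup.mk bw * a * h) = io 2 (FreeGroup.mk bw * a) +
      io 2 (FreeGroup.mk bw) * X + io 2 (FreeGroup.mk bw) * ((io 2 a - 1) * X) +
      io 2 (FreeGroup.mk bw * a) * (io 2 h - 1 - X) := by
    rw [map_mul, map_mul]
    noncomm_ring
  have h1 : io 2 (FreeGroup.mk bw) * ((io 2 a - 1) * X) ∈ Tf 2 (2 * j + 1 + 1 + 1) := by
    have := (N518.KT.filt 2).mul 1 (2 * j + 1 + 1) _ _ ha hh.1
    rw [show 1 + (2 * j + 1 + 1) = 2 * j + 1 + 1 + 1 by omega] at this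
    exact (N518.KT.filt 2).left ((N518.KT.filt 2).mem _) this
  have h2 : io 2 (FreeGroup.mk bw * a) * (io 2 h - 1 - X) ∈ Tf 2 (2 * j + 1 + 1 + 1) :=
    (N518.KT.filt 2).left ((N518.KT.filt 2).mem _) hh.2
  have h3 : PowerSeries.coeff (R := ℂ) (2 * j + 1 + 1) (HH 2 (io 2 (FreeGroup.mk bw) * X)) =
      (-2) ^ (2 * j + 1 + 1) * ((S * 4 ^ j : ℤ) : ℂ) := by
    refine coeff_value (Y := S • adr (sg 0) (sg 1) (2 * j + 1)) ?_ ?_
    · intro u w
      rw [hX, mul_smul_comm, smul_mul_assoc, map_zsmul, rel_adr (2 * j + 1) u w, mul_smul_comm,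
        smul_mul_assoc, map_zsmul, mul_smul_comm]
    · rw [map_zsmul, adr_map, mul_smul]
      congr 1
      exact adr_odd (qs_sq 0) j
  unfold co
  rw [e3, map_add, map_add, map_add, map_add, map_add, map_add, h3,
    PowerSeries.X_pow_dvd_iff.mp (HH_Tf h1) _ (by omega),
    PowerSeries.X_pow_dvd_iff.mp (HH_Tf h2) _ (by omega)]
  push_cast
  ring

/-- **the digits are determined** -/
theorem digits_of_co {y : ℤ} (k : ℕ) (d d' : ℕ → ℕ → ℤ) (h : ∀ n t, 1 ≤ d n t ∧ d n t ≤ y)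
    (h' : ∀ n t, 1 ≤ d' n t ∧ d' n t ≤ y) {a : FG} (ha : Pu a)
    (e : ∀ j, j < k → co (2 * j + 1 + 1) (FreeGroup.mk bw * a * GW y d k) =
      co (2 * j + 1 + 1) (FreeGroup.mk bw * a * GW y d' k)) :
    (∀ j, j < k → ∀ t < 2 * (j + 1), d j t = d' j t) ∧ GW y d k = GW y d' k := by
  induction k with
  | zero => exact ⟨fun n h1 => by omega, rfl⟩
  | succ k ih =>
    have key : ∀ D : ℕ → ℕ → ℤ, ∀ j, j < k →
        co (2 * j + 1 + 1) (FreeGroup.mk bw * a * GW y D (k + 1)) =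
          co (2 * j + 1 + 1) (FreeGroup.mk bw * a * GW y D k) := by
      intro D j hj
      have h1 := (lead_PG y (D k) (n := 2 * (k + 1)) (by omega) le_rfl).diff (N518.KT.filt 2)
      have h2 := co_low (n := 2 * j + 1 + 1) (by omega) (FreeGroup.mk bw * a * GW y D k) _ h1
      rw [GW, ← mul_assoc]
      exact h2
    have top : ∀ D : ℕ → ℕ → ℤ,
        co (2 * k + 1 + 1) (FreeGroup.mk bw * a * GW y D (k + 1)) =
          co (2 * k + 1 + 1) (FreeGroup.mk bw * a * GW y D k) +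
          (-2) ^ (2 * k + 1 + 1) * 4 ^ k *
            ((∑ t ∈ Finset.range (2 * (k + 1)), D k t * y ^ t : ℤ) : ℂ) := by
      intro D
      have h1 := lead_PG y (D k) (n := 2 * (k + 1)) (by omega) le_rfl
      have h2 := co_top (j := k) (ha.mul (pu_GW y D k)) h1
      rw [GW]
      simp only [← mul_assoc] at h2 ⊢
      exact h2
    have i1 := ih fun j hj => by rw [← key d j hj, ← key d' j hj]; exact e j (by omega)
    have e2 := e k (by omega)
    rw [top, top, i1.2] at e2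
    have e3 := add_left_cancel e2
    have hne : ((-2 : ℂ) ^ (2 * k + 1 + 1) * 4 ^ k) ≠ 0 :=
      mul_ne_zero (pow_ne_zero _ (by norm_num)) (pow_ne_zero _ (by norm_num))
    have e4 := mul_left_cancel₀ hne e3
    have e5 : ∑ t ∈ Finset.range (2 * (k + 1)), d k t * y ^ t =
        ∑ t ∈ Finset.range (2 * (k + 1)), d' k t * y ^ t := by exact_mod_cast e4
    have e6 := digits_inj (2 * (k + 1)) (d k) (d' k) (fun t _ => h _ t) (fun t _ => h' _ t) e5
    have e7 : ∀ m, m ≤ 2 * (k + 1) → PG y (2 * (k + 1)) (d k) m = PG y (2 * (k + 1)) (d' k) m := by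
      intro m hm
      induction m with
      | zero => rfl
      | succ m ihm => rw [PG, PG, ihm (by omega), e6 m (by omega)]
    refine ⟨fun j hj t ht => ?_, ?_⟩
    · rcases Nat.lt_or_ge j k with h3 | h3
      · exact i1.1 j h3 t ht
      · have : j = k := by omega
        subst this
        exact e6 t ht
    · rw [GW, GW, i1.2, e7 _ le_rfl]

/-! ### lengths -/

theorem norm_sq (i : Fin 2) : (N518.KT.sq i : FG).norm ≤ 2 := by
  unfold N518.KT.sq
  exact FreeGroup.norm_mk_le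

theorem norm_nest {Y : ℕ} (l : List ℤ) (hl : ∀ x ∈ l, x.natAbs ≤ Y) :
    (nest qa qb l).norm ≤ 4 ^ l.length * Y := by
  have m4 : ∀ g k : FG, (cm g k).norm ≤ 2 * g.norm + 2 * k.norm := by
    intro g k
    unfold cm
    have h1 := FreeGroup.norm_mul_le (g * k * g⁻¹) k⁻¹
    have h2 := FreeGroup.norm_mul_le (g * k) g⁻¹
    have h3 := FreeGroup.norm_mul_le g k
    rw [FreeGroup.norm_inv_eq] at h1 h2
    omega
  have hz : ∀ (i : Fin 2) (e : ℤ), e.natAbs ≤ Y → ((N518.KT.sq i : FG) ^ e).norm ≤ 2 * Y := by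
    intro i e he
    have h1 := norm_zpow_le (N518.KT.sq i : FG) e
    have h2 := norm_sq i
    nlinarith
  induction l with
  | nil => simp [nest]
  | cons e l ih =>
    have he := hl e (List.mem_cons_self)
    rcases l with _ | ⟨f, l⟩
    · have h7 : (qb ^ e).norm ≤ 2 * Y := hz 1 e he
      have e1 : nest qa qb [e] = qb ^ e := rfl
      rw [e1]
      simp only [List.length_cons, List.length_nil]
      omega
    · have h1 := ih fun x hx => hl x (List.mem_cons_of_mem _ hx)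
      have h2 : (qa ^ e).norm ≤ 2 * Y := hz 0 e he
      have h3 := m4 (qa ^ e) (nest qa qb (f :: l))
      have e1 : nest qa qb (e :: f :: l) = cm (qa ^ e) (nest qa qb (f :: l)) := rfl
      rw [e1]
      have h4 : 4 ^ 1 ≤ 4 ^ (f :: l).length :=
        Nat.pow_le_pow_right (by norm_num) (by simp)
      rw [List.length_cons (a := e), pow_succ]
      nlinarith

theorem norm_PG {Y : ℕ} (hY : 1 ≤ Y) {n : ℕ} (hn : 2 ≤ n) {δ : ℕ → ℤ}
    (hδ : ∀ t, 1 ≤ δ t ∧ δ t ≤ Y) {m : ℕ} (hm : m ≤ n) :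
    (PG Y n δ m).norm ≤ m * 4 ^ n * Y := by
  induction m with
  | zero => simp [PG]
  | succ m ih =>
    have h1 := ih (by omega)
    have h2 := FreeGroup.norm_mul_le (PG Y n δ m) (nest qa qb (ent Y n m (δ m)))
    have h3 := norm_nest (Y := Y) (ent Y n m (δ m)) (by
      intro x hx
      have h4 := hδ m
      unfold ent at hx
      simp only [List.mem_cons, List.mem_append, List.mem_replicate] at hx
      rcases hx with rfl | ⟨-, rfl⟩ | ⟨-, rfl⟩ <;> omega)
    obtain ⟨f, l, e, hl⟩ := ent_form (Y : ℤ) (δ m) hn (show m < n by omega)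
    have h5 : (ent (Y : ℤ) n m (δ m)).length = n := by
      rw [e, List.length_cons, List.length_cons, hl]
    rw [h5] at h3
    rw [PG]
    calc _ ≤ _ := h2
      _ ≤ m * 4 ^ n * Y + 4 ^ n * Y := Nat.add_le_add h1 h3
      _ = (m + 1) * 4 ^ n * Y := by ring

theorem norm_GW (k : ℕ) : ∃ K : ℕ, ∀ (Y : ℕ) (d : ℕ → ℕ → ℤ), 1 ≤ Y →
    (∀ n t, 1 ≤ d n t ∧ d n t ≤ Y) → (GW Y d k).norm ≤ K * Y := by
  induction k with
  | zero => exact ⟨0, fun Y d _ _ => by simp [GW]⟩
  | succ k ih =>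
    obtain ⟨K, hK⟩ := ih
    refine ⟨K + 2 * (k + 1) * 4 ^ (2 * (k + 1)), fun Y d hY hd => ?_⟩
    have h1 := hK Y d hY hd
    have h2 := norm_PG hY (n := 2 * (k + 1)) (by omega) (hd k) le_rfl
    have h3 := FreeGroup.norm_mul_le (GW Y d k) (PG Y (2 * (k + 1)) (d k) (2 * (k + 1)))
    rw [GW]
    calc _ ≤ _ := h3
      _ ≤ K * Y + 2 * (k + 1) * 4 ^ (2 * (k + 1)) * Y := Nat.add_le_add h1 h2
      _ = _ := by ring

/-! ### the exponent sum and the permutation -/

theorem es_cm (g k : FG) : es (cm g k) = 1 := by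
  unfold cm
  simp only [map_mul, map_inv]
  rw [mul_comm (es g) (es k), mul_assoc (es k), mul_inv_cancel, mul_one, mul_inv_cancel]

theorem es_PG (y : ℤ) {n : ℕ} (δ : ℕ → ℤ) (hn : 2 ≤ n) {m : ℕ} (hm : m ≤ n) :
    es (PG y n δ m) = 1 := by
  induction m with
  | zero => simp [PG]
  | succ m ih =>
    obtain ⟨f, l, e, -⟩ := ent_form y (δ m) hn (show m < n by omega)
    rw [PG, map_mul, ih (by omega), e]
    show 1 * es (cm _ _) = 1
    rw [es_cm, one_mul]

theorem es_GW (y : ℤ) (d : ℕ → ℕ → ℤ) (k : ℕ) : es (GW y d k) = 1 := by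
  induction k with
  | zero => simp [GW]
  | succ k ih => rw [GW, map_mul, ih, es_PG y _ (by omega) le_rfl, one_mul]

theorem pmG_PG (y : ℤ) (n : ℕ) (δ : ℕ → ℤ) (m : ℕ) : pmG 2 (PG y n δ m) = 1 := by
  induction m with
  | zero => simp [PG]
  | succ m ih => rw [PG, map_mul, ih, pmG_nest, one_mul]

theorem pmG_GW (y : ℤ) (d : ℕ → ℕ → ℤ) (k : ℕ) : pmG 2 (GW y d k) = 1 := by
  induction k with
  | zero => simp [GW]
  | succ k ih => rw [GW, map_mul, ih, pmG_PG, one_mul]

end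

end Pool.Agent.H66.PB
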