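import Pool.Agent.H66.PB.Fam

/-!
# Closed positive three-braids which are separated by the Vassiliev invariants of order `≤ 2 M`
-/

set_option autoImplicit false

namespace Pool.Agent.H66.PB

open Pool.Agent.N518.KT Pool.Agent.V11208.FT
open Pool.Agent.H66.TBG (ent ent_form ent_prod digits_inj)

noncomputable section

/-- the braid word of a family of digits -/
def bwd (y : ℤ) (d : ℕ → ℕ → ℤ) (k : ℕ) : Word 2 := (FreeGroup.mk bw * GW y d k).toWord

theorem mk_bwd (y : ℤ) (d : ℕ → ℕ → ℤ) (k : ℕ) :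
    (FreeGroup.mk (bwd y d k) : FG) = FreeGroup.mk bw * GW y d k := FreeGroup.mk_toWord

theorem ng_le (w : Word 2) : ng w ≤ w.length := List.countP_le_length

theorem length_bwd {K Y : ℕ} {d : ℕ → ℕ → ℤ} {k : ℕ} (h : (GW Y d k).norm ≤ K * Y)
    (hY : 1 ≤ Y) : ng (bwd Y d k) ≤ (K + 2) * Y := by
  have h1 : (bwd Y d k).length = (FreeGroup.mk bw * GW Y d k).norm := rfl
  have h2 := FreeGroup.norm_mul_le (FreeGroup.mk bw) (GW Y d k)
  have h3 : (FreeGroup.mk bw : FG).norm ≤ 2 := FreeGroup.norm_mk_le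
  have h4 := ng_le (bwd Y d k)
  nlinarith

theorem es_bwd (y : ℤ) (d : ℕ → ℕ → ℤ) (k : ℕ) :
    ((bwd y d k).length : ℤ) - 2 * ng (bwd y d k) = 2 := by
  rw [← es_mk, mk_bwd, map_mul, es_GW, mul_one, es_mk]
  rfl

theorem isKnot_pw (m : ℕ) (y : ℤ) (d : ℕ → ℕ → ℤ) (k : ℕ) : IsKnot (pw m (bwd y d k)) := by
  refine (isKnot_congr ?_).2 isKnot_bw
  rw [perm_pw, bwd, pmG_toWord, map_mul, pmG_GW, mul_one, pmG_mk]

/-- the coefficient of the Conway polynomial of the closure of the positive braid -/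
theorem cw_pw {m : ℕ} {y : ℤ} {d : ℕ → ℕ → ℤ} {k : ℕ} (h : ng (bwd y d k) ≤ m)
    (hk : IsKnot (pw m (bwd y d k))) (n : ℕ) :
    cw n (closure _ hk) = co n (FreeGroup.mk bw * dl ^ m * GW y d k) := by
  rw [cw_closure]
  have h1 := pj_pw h
  rw [mk_bwd, mul_assoc, map_mul, map_mul, map_pow, ← ((dl_comm (GW y d k)).pow_left m).eq,
    ← map_pow, ← map_mul, ← map_mul, ← mul_assoc] at h1
  have h2 := cG_of_pj h1
  rw [cG_mk] at h2
  unfold co
  rw [HH_io, ← h2]

/-- the index set of the digits -/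
def II (M : ℕ) : Finset (Σ _ : ℕ, ℕ) := (Finset.range M).sigma fun j => Finset.range (2 * (j + 1))

theorem card_II (M : ℕ) : (II M).card = M * (M + 1) := by
  unfold II
  rw [Finset.card_sigma]
  simp only [Finset.card_range]
  induction M with
  | zero => simp
  | succ M ih =>
    rw [Finset.sum_range_succ, ih]
    ring

open Classical in
/-- the digits of a function -/
def dig {M Y : ℕ} (f : II M → Fin Y) (n t : ℕ) : ℤ :=
  if h : (⟨n, t⟩ : Σ _ : ℕ, ℕ) ∈ II M then ((f ⟨⟨n, t⟩, h⟩ : ℕ) : ℤ) + 1 else 1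

theorem dig_bound {M Y : ℕ} (hY : 1 ≤ Y) (f : II M → Fin Y) (n t : ℕ) :
    1 ≤ dig f n t ∧ dig f n t ≤ Y := by
  unfold dig
  split_ifs with h
  · have := (f ⟨⟨n, t⟩, h⟩).2
    constructor <;> omega
  · constructor <;> omega

theorem degreeLE_mono {A : Type*} [AddCommGroup A] {m n : ℕ} (h : m ≤ n) {v : Knot → A}
    (hv : DegreeLE m v) : DegreeLE n v := fun k S hS => hv k S (by omega)

/-- **the main theorem** -/
theorem main (M : ℕ) : ∃ K : ℕ, ∀ Y : ℕ, ∃ T : Finset (Word 2),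
    (∀ w ∈ T, IsKnot w ∧ (∀ l ∈ w, l.2 = true) ∧ w.length = K * Y + 2) ∧
    T.card = Y ^ (M * (M + 1)) ∧
    ∀ w ∈ T, ∀ w' ∈ T, w ≠ w' → ∃ v : Knot → ℂ, DegreeLE (2 * M) v ∧
      ∀ (h : IsKnot w) (h' : IsKnot w'), v (closure w h) ≠ v (closure w' h') := by
  classical
  rcases Nat.eq_zero_or_pos M with hM | hM
  · subst hM
    refine ⟨0, fun Y => ⟨{bw}, ?_, by simp, ?_⟩⟩
    · intro w hw
      rw [Finset.mem_singleton] at hw
      subst hw
      exact ⟨isKnot_bw, by decide, by rw [zero_mul]; rfl⟩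
    · intro w hw w' hw' hne
      rw [Finset.mem_singleton] at hw hw'
      exact absurd (hw.trans hw'.symm) hne
  obtain ⟨K, hK⟩ := norm_GW M
  refine ⟨6 * (K + 2), fun Y => ?_⟩
  rcases Nat.eq_zero_or_pos Y with hY | hY
  · subst hY
    refine ⟨∅, by simp, ?_, by simp⟩
    rw [Finset.card_empty, zero_pow (by positivity)]
  set m := (K + 2) * Y with hm
  let F : (II M → Fin Y) → Word 2 := fun f => pw m (bwd Y (dig f) M)
  have hF : ∀ f, F f = pw m (bwd Y (dig f) M) := fun _ => rfl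
  have hng : ∀ f : II M → Fin Y, ng (bwd Y (dig f) M) ≤ m := fun f =>
    length_bwd (hK Y (dig f) hY (dig_bound hY f)) hY
  have hkn : ∀ f, IsKnot (F f) := fun f => isKnot_pw m Y (dig f) M
  have hsep : ∀ f g, (∀ j, j < M → cw (2 * j + 1 + 1) (closure (F f) (hkn f)) =
      cw (2 * j + 1 + 1) (closure (F g) (hkn g))) → f = g := by
    intro f g h
    have h2 := (digits_of_co (y := Y) M (dig f) (dig g) (dig_bound hY f)
      (dig_bound hY g) (pu_dl.pow m) fun j hj => by
        have h3 := h j hj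
        rw [cw_pw (hng f) (hkn f), cw_pw (hng g) (hkn g)] at h3
        exact h3).1
    funext i
    obtain ⟨⟨n, t⟩, hi⟩ := i
    have hi' := hi
    unfold II at hi'
    rw [Finset.mem_sigma, Finset.mem_range, Finset.mem_range] at hi'
    have h3 := h2 n hi'.1 t hi'.2
    unfold dig at h3
    rw [dif_pos hi, dif_pos hi] at h3
    apply Fin.ext
    omega
  have hinj : Function.Injective F := by
    intro f g h
    apply hsep f g
    intro j _
    have : closure (F f) (hkn f) = closure (F g) (hkn g) := by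
      congr 1
    rw [this]
  refine ⟨Finset.univ.image F, ?_, ?_, ?_⟩
  · intro w hw
    obtain ⟨f, -, rfl⟩ := Finset.mem_image.1 hw
    refine ⟨hkn f, pw_pos _ _, ?_⟩
    have h1 := pw_length (hng f)
    have h2 := es_bwd Y (dig f) M
    rw [← hF] at h1
    have h3 : 6 * (K + 2) * Y = 6 * m := by rw [hm]; ring
    rw [h3]
    omega
  · rw [Finset.card_image_of_injective _ hinj, Finset.card_univ, Fintype.card_fun,
      Fintype.card_fin, Fintype.card_coe, card_II]
  · intro b hb c hc hne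
    obtain ⟨f, -, rfl⟩ := Finset.mem_image.1 hb
    obtain ⟨g, -, rfl⟩ := Finset.mem_image.1 hc
    have h1 : ¬ ∀ j, j < M → cw (2 * j + 1 + 1) (closure (F f) (hkn f)) =
      cw (2 * j + 1 + 1) (closure (F g) (hkn g)) := fun h => hne (by rw [hsep f g h])
    push Not at h1
    obtain ⟨j, hj, h2⟩ := h1
    refine ⟨cw (2 * j + 1 + 1), degreeLE_mono (by omega) (degree_cw _), fun h h' => h2⟩

end

end Pool.Agent.H66.PB
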