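import Pool.Graph.R_pool_sql_team_seeded_63374d34.N518.KT.Univ

/-!
# Positive braid words on three strands
-/

set_option autoImplicit false

namespace Pool.Agent.H66.PB

open Pool.Agent.N518.KT Pool.Agent.V11208.FT

noncomputable section

/-- the free group -/
abbrev FG : Type := FreeGroup (Fin 2)

/-- the elements which can be left out -/
def KK : Subgroup FG where
  carrier := {g | ∀ u v, cG 2 (u * g * v) = cG 2 (u * v)}
  one_mem' := fun u v => by rw [mul_one]
  mul_mem' := by
    intro g h hg hh u v
    have e : u * (g * h) * v = u * g * (h * v) := by group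
    have e2 : u * (h * v) = u * h * v := by group
    rw [e, hg, e2, hh]
  inv_mem' := by
    intro g hg u v
    have := hg (u * g⁻¹) v
    have e : u * g⁻¹ * g * v = u * v := by group
    rw [e] at this
    exact this.symm

instance : KK.Normal where
  conj_mem := by
    intro g hg x u v
    have e : u * (x * g * x⁻¹) * v = u * x * g * (x⁻¹ * v) := by group
    have e2 : u * x * (x⁻¹ * v) = u * v := by group
    rw [e, hg, e2]

/-- the quotient -/
abbrev QQ : Type := FG ⧸ KK

/-- the projection -/
def pj : FG →* QQ := QuotientGroup.mk' KK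

theorem cG_of_pj {g h : FG} (e : pj g = pj h) : cG 2 g = cG 2 h := by
  have h1 : g⁻¹ * h ∈ KK := (QuotientGroup.mk'_eq_mk' KK).1 e |> fun ⟨z, hz, hz2⟩ => by
    rw [← hz2]
    simpa using hz
  have h2 := h1 g 1
  have e2 : g * (g⁻¹ * h) * 1 = h := by group
  rw [e2, mul_one] at h2
  exact h2.symm

theorem pj_eq {g h : FG} (e : ∀ u v, cG 2 (u * g * v) = cG 2 (u * h * v)) : pj g = pj h := by
  have h1 : g⁻¹ * h ∈ KK := by
    intro u v
    have h2 := e (u * g⁻¹) v
    have e2 : u * g⁻¹ * g * v = u * v := by group
    have e3 : u * (g⁻¹ * h) * v = u * g⁻¹ * h * v := by group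
    rw [e3, ← h2, e2]
  exact (QuotientGroup.mk'_eq_mk' KK).2 ⟨g⁻¹ * h, h1, by group⟩

/-- the generators -/
def gs : FG := FreeGroup.mk [(0, true)]
/-- the generators -/
def gt : FG := FreeGroup.mk [(1, true)]

theorem braid : pj gs * pj gt * pj gs = pj gt * pj gs * pj gt := by
  rw [← map_mul, ← map_mul, ← map_mul, ← map_mul]
  apply pj_eq
  intro u v
  have h := HH_braid (n := 2) 0 1 rfl (io 2 u) (io 2 v)
  unfold sg at h
  simp only [← map_mul, HH_io] at h
  exact h

/-- the full twist -/
def dl : FG := gs * gt * gs * (gs * gt * gs)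

theorem dl_comm_s : pj dl * pj gs = pj gs * pj dl := by
  have b := braid
  unfold dl
  simp only [map_mul]
  have h1 : pj gs * pj gt * pj gs * pj gs = pj gt * (pj gs * pj gt * pj gs) := by
    rw [b]
    simp only [mul_assoc]
    rw [← mul_assoc (pj gs) (pj gt) (pj gs), b]
    simp only [mul_assoc]
  have h2 : pj gs * (pj gs * pj gt * pj gs) = pj gs * pj gt * pj gs * pj gt := by
    rw [b]
    simp only [← mul_assoc]
    rw [b]
  calc pj gs * pj gt * pj gs * (pj gs * pj gt * pj gs) * pj gs
      = pj gs * pj gt * pj gs * (pj gs * pj gt * pj gs * pj gs) := by group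
    _ = pj gs * pj gt * pj gs * (pj gt * (pj gs * pj gt * pj gs)) := by rw [h1]
    _ = pj gs * pj gt * pj gs * pj gt * (pj gs * pj gt * pj gs) := by group
    _ = pj gs * (pj gs * pj gt * pj gs) * (pj gs * pj gt * pj gs) := by rw [h2]
    _ = pj gs * (pj gs * pj gt * pj gs * (pj gs * pj gt * pj gs)) := by group

theorem dl_comm_t : pj dl * pj gt = pj gt * pj dl := by
  have b := braid
  unfold dl
  simp only [map_mul]
  have h1 : pj gs * pj gt * pj gs * pj gt = pj gs * (pj gs * pj gt * pj gs) := by
    rw [b]
    simp only [← mul_assoc]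
    rw [b]
  have h2 : pj gt * (pj gs * pj gt * pj gs) = pj gs * pj gt * pj gs * pj gs := by
    rw [b]
    simp only [mul_assoc]
    rw [← mul_assoc (pj gs) (pj gt) (pj gs), b]
    simp only [mul_assoc]
  calc pj gs * pj gt * pj gs * (pj gs * pj gt * pj gs) * pj gt
      = pj gs * pj gt * pj gs * (pj gs * pj gt * pj gs * pj gt) := by group
    _ = pj gs * pj gt * pj gs * (pj gs * (pj gs * pj gt * pj gs)) := by rw [h1]
    _ = pj gs * pj gt * pj gs * pj gs * (pj gs * pj gt * pj gs) := by group
    _ = pj gt * (pj gs * pj gt * pj gs) * (pj gs * pj gt * pj gs) := by rw [h2]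
    _ = pj gt * (pj gs * pj gt * pj gs * (pj gs * pj gt * pj gs)) := by group

theorem mk_false (i : Fin 2) : (FreeGroup.mk [(i, false)] : FG) = (FreeGroup.mk [(i, true)])⁻¹ := by
  rw [FreeGroup.inv_mk]; rfl

theorem dl_comm (g : FG) : Commute (pj dl) (pj g) := by
  have key : ∀ l : Fin 2 × Bool, Commute (pj dl) (pj (FreeGroup.mk [l])) := by
    rintro ⟨i, b⟩
    have ht : Commute (pj dl) (pj (FreeGroup.mk [(i, true)])) := by
      fin_cases i
      · exact dl_comm_s
      · exact dl_comm_t
    cases b
    · rw [mk_false, map_inv]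
      exact ht.inv_right
    · exact ht
  induction g using Quot.inductionOn with
  | h L =>
    show Commute (pj dl) (pj (FreeGroup.mk L))
    induction L with
    | nil =>
      rw [← FreeGroup.one_eq_mk, map_one]
      exact Commute.one_right _
    | cons l L ih =>
      have e : (FreeGroup.mk (l :: L) : FG) = FreeGroup.mk [l] * FreeGroup.mk L := by
        rw [FreeGroup.mul_mk]; rfl
      rw [e, map_mul]
      exact (key l).mul_right ih

/-! ### positive words -/

/-- the positive word of a letter times the full twist, if the letter is negative -/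
def pl (l : Fin 2 × Bool) : Word 2 :=
  if l.2 then [l] else if l.1 = 0 then [(1, true), (0, true), (0, true), (1, true), (0, true)]
  else [(0, true), (1, true), (1, true), (0, true), (1, true)]

/-- the number of negative letters -/
def ng (w : Word 2) : ℕ := w.countP fun l => !l.2

/-- the positive word of the full twist -/
def dw : Word 2 := [(0, true), (1, true), (0, true), (0, true), (1, true), (0, true)]

/-- the positive word of `w Δ^{2m}` -/
def pw (m : ℕ) (w : Word 2) : Word 2 :=
  (w.map pl).flatten ++ (List.replicate (m - ng w) dw).flatten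

theorem mk_dw : (FreeGroup.mk dw : FG) = dl := by
  unfold dl gs gt dw
  simp only [FreeGroup.mul_mk]
  rfl

theorem pj_pl (l : Fin 2 × Bool) : pj (FreeGroup.mk (pl l)) =
    pj (FreeGroup.mk [l]) * pj dl ^ (if l.2 then 0 else 1) := by
  have b := braid
  obtain ⟨i, c⟩ := l
  cases c
  · fin_cases i
    · have e1 : (FreeGroup.mk (pl (0, false)) : FG) = gt * gs * gs * gt * gs := by
        unfold pl gs gt
        simp only [FreeGroup.mul_mk]
        rfl
      show pj (FreeGroup.mk (pl (0, false))) = pj (FreeGroup.mk [(0, false)]) * _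
      rw [e1, mk_false]
      have e2 : (FreeGroup.mk [(0, true)] : FG) = gs := rfl
      rw [e2]
      simp only [Bool.false_eq_true, if_false, pow_one]
      have e3 : gs⁻¹ * dl = gt * gs * gs * gt * gs := by
        unfold dl
        group
      rw [← map_mul, e3]
    · have e1 : (FreeGroup.mk (pl (1, false)) : FG) = gs * gt * gt * gs * gt := by
        unfold pl gs gt
        simp only [FreeGroup.mul_mk]
        rfl
      show pj (FreeGroup.mk (pl (1, false))) = pj (FreeGroup.mk [(1, false)]) * _
      rw [e1, mk_false]
      have e2 : (FreeGroup.mk [(1, true)] : FG) = gt := rfl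
      rw [e2]
      simp only [Bool.false_eq_true, if_false, pow_one]
      unfold dl
      simp only [map_mul, map_inv]
      rw [b]
      group
  · have : pl (i, true) = [(i, true)] := by fin_cases i <;> rfl
    rw [this]
    simp

theorem pj_flat (w : Word 2) : pj (FreeGroup.mk (w.map pl).flatten) =
    pj (FreeGroup.mk w) * pj dl ^ ng w := by
  induction w with
  | nil => simp [ng]
  | cons l w ih =>
    have e1 : (FreeGroup.mk ((l :: w).map pl).flatten : FG) =
        FreeGroup.mk (pl l) * FreeGroup.mk (w.map pl).flatten := by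
      rw [FreeGroup.mul_mk]; rfl
    have e2 : (FreeGroup.mk (l :: w) : FG) = FreeGroup.mk [l] * FreeGroup.mk w := by
      rw [FreeGroup.mul_mk]; rfl
    rw [e1, map_mul, pj_pl, ih, e2, map_mul]
    have e3 : ng (l :: w) = (if l.2 then 0 else 1) + ng w := by
      unfold ng
      rw [List.countP_cons]
      rcases l with ⟨i, b⟩
      cases b <;> simp [add_comm]
    rw [e3, pow_add]
    have hc : Commute (pj dl ^ (if l.2 then 0 else 1)) (pj (FreeGroup.mk w)) :=
      (dl_comm _).pow_left _
    calc pj (FreeGroup.mk [l]) * pj dl ^ (if l.2 = true then 0 else 1) *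
          (pj (FreeGroup.mk w) * pj dl ^ ng w)
        = pj (FreeGroup.mk [l]) * (pj dl ^ (if l.2 = true then 0 else 1) *
          pj (FreeGroup.mk w)) * pj dl ^ ng w := by group
      _ = pj (FreeGroup.mk [l]) * (pj (FreeGroup.mk w) *
          pj dl ^ (if l.2 = true then 0 else 1)) * pj dl ^ ng w := by rw [hc.eq]
      _ = _ := by group

theorem mk_rep (k : ℕ) : (FreeGroup.mk (List.replicate k dw).flatten : FG) = dl ^ k := by
  induction k with
  | zero => simp [FreeGroup.one_eq_mk]
  | succ k ih =>
    rw [List.replicate_succ, List.flatten_cons, ← FreeGroup.mul_mk, ih, mk_dw, pow_succ']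

theorem pj_pw {m : ℕ} {w : Word 2} (h : ng w ≤ m) :
    pj (FreeGroup.mk (pw m w)) = pj (FreeGroup.mk w * dl ^ m) := by
  unfold pw
  rw [← FreeGroup.mul_mk, map_mul, pj_flat, mk_rep, map_pow, map_mul, map_pow, mul_assoc, ← pow_add]
  congr 2
  omega

theorem pw_pos (m : ℕ) (w : Word 2) : ∀ l ∈ pw m w, l.2 = true := by
  intro l hl
  unfold pw at hl
  rw [List.mem_append] at hl
  rcases hl with hl | hl
  · rw [List.mem_flatten] at hl
    obtain ⟨L, hL, hl⟩ := hl
    rw [List.mem_map] at hL
    obtain ⟨⟨i, b⟩, -, rfl⟩ := hL
    revert hl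
    revert l
    revert i b
    decide
  · rw [List.mem_flatten] at hl
    obtain ⟨L, hL, hl⟩ := hl
    rw [List.eq_of_mem_replicate hL] at hl
    revert hl
    revert l
    decide

theorem length_flat (w : Word 2) : (w.map pl).flatten.length = w.length + 4 * ng w := by
  induction w with
  | nil => rfl
  | cons l w ih =>
    have e3 : ng (l :: w) = (if l.2 then 0 else 1) + ng w := by
      unfold ng
      rw [List.countP_cons]
      rcases l with ⟨i, b⟩
      cases b <;> simp [add_comm]
    have e4 : (pl l).length = 1 + 4 * (if l.2 then 0 else 1) := by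
      clear e3 ih
      revert l
      decide
    rw [List.map_cons, List.flatten_cons, List.length_append, ih, e3, e4, List.length_cons]
    omega

theorem pw_length {m : ℕ} {w : Word 2} (h : ng w ≤ m) :
    (pw m w).length + 2 * ng w = w.length + 6 * m := by
  unfold pw
  rw [List.length_append, length_flat, List.length_flatten, List.map_replicate, List.sum_replicate]
  have : dw.length = 6 := rfl
  rw [this, smul_eq_mul]
  omega

/-! ### the exponent sum -/

/-- the exponent sum -/
def es : FG →* Multiplicative ℤ := FreeGroup.lift fun _ => Multiplicative.ofAdd 1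

theorem es_mk (w : Word 2) : Multiplicative.toAdd (es (FreeGroup.mk w)) =
    (w.length : ℤ) - 2 * ng w := by
  induction w with
  | nil => simp [ng, es]
  | cons l w ih =>
    have e2 : (FreeGroup.mk (l :: w) : FG) = FreeGroup.mk [l] * FreeGroup.mk w := by
      rw [FreeGroup.mul_mk]; rfl
    have e3 : ng (l :: w) = (if l.2 then 0 else 1) + ng w := by
      unfold ng
      rw [List.countP_cons]
      rcases l with ⟨i, b⟩
      cases b <;> simp [add_comm]
    rw [e2, map_mul, toAdd_mul, ih, e3, List.length_cons]
    rcases l with ⟨i, b⟩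
    cases b
    · have : es (FreeGroup.mk [(i, false)]) = (Multiplicative.ofAdd (1 : ℤ))⁻¹ := by
        rw [mk_false, map_inv]
        congr 1
      rw [this]
      simp
      ring
    · have : es (FreeGroup.mk [(i, true)]) = (Multiplicative.ofAdd (1 : ℤ)) := rfl
      rw [this]
      simp
      ring

/-! ### the permutation -/

theorem perm_pl (l : Fin 2 × Bool) : perm (pl l) = perm [l] := by
  revert l
  decide

theorem perm_pw (m : ℕ) (w : Word 2) : perm (pw m w) = perm w := by
  have h1 : perm (w.map pl).flatten = perm w := by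
    induction w with
    | nil => rfl
    | cons l w ih =>
      rw [List.map_cons, List.flatten_cons, perm_append, perm_pl, ih, ← perm_append]
      rfl
  have h2 : ∀ k : ℕ, perm (List.replicate k dw).flatten = 1 := by
    intro k
    induction k with
    | zero => rfl
    | succ k ih =>
      rw [List.replicate_succ, List.flatten_cons, perm_append, ih, mul_one]
      decide
  unfold pw
  rw [perm_append, h1, h2, mul_one]

end

end Pool.Agent.H66.PB
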